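import Mathlib
import Pool.Agent.Results.MP_dca9d4_lc.ExpSystem

set_option autoImplicit false

/-! Words over `Fin n` and pairs of morphisms of `(Fin n)*` built from the gate of `ExpSystem`. -/

namespace Pool.Agent.H688.WE

open Pool.Agent.Results.MP_dca9d4_lc.ExpSystem

section words

variable {n m : ℕ}

/-- The word attached to a subset `S` of `Fin m` and the programs `u`, `v`. -/
def wd (enc : Bool × Fin m × Bool → Fin n) (e : ℕ → Fin m)
    (u v : List (Bool × ℕ)) : List (Fin n) :=
  u.map (fun s => enc (s.1, e s.2, false)) ++ v.map (fun s => enc (s.1, e s.2, true))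

/-- The morphism writing the letters of side `d` controlled by `B`. -/
noncomputable def mor (enc : Bool × Fin m × Bool → Fin n) (a b : Fin n)
    (B : Finset (Fin m)) (d : Bool) (l : Fin n) : List (Fin n) := by
  classical
  exact if ∃ i ∈ B, enc (false, i, d) = l then [a]
    else if ∃ i ∈ B, enc (true, i, d) = l then [b] else []

theorem mor_enc {enc : Bool × Fin m × Bool → Fin n} (henc : Function.Injective enc)
    (a b : Fin n) (B : Finset (Fin m)) (d : Bool) (c : Bool) (i : Fin m) :
    mor enc a b B d (enc (c, i, d)) = if i ∈ B then [if c = true then b else a] else [] := by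
  classical
  unfold mor
  by_cases hi : i ∈ B
  · cases c with
    | false =>
      have h : ∃ j ∈ B, enc (false, j, d) = enc (false, i, d) := ⟨i, hi, rfl⟩
      simp [hi]
      intro h'
      exact absurd rfl (h' i hi)
    | true =>
      have h1 : ¬ ∃ j ∈ B, enc (false, j, d) = enc (true, i, d) := by
        rintro ⟨j, _, hj⟩
        have := henc hj
        simp at this
      have h2 : ∃ j ∈ B, enc (true, j, d) = enc (true, i, d) := ⟨i, hi, rfl⟩
      rw [if_neg h1, if_pos h2]
      simp [hi]
  · have h1 : ¬ ∃ j ∈ B, enc (false, j, d) = enc (c, i, d) := by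
      rintro ⟨j, hjB, hj⟩
      have := henc hj
      simp only [Prod.mk.injEq] at this
      exact hi (this.2.1 ▸ hjB)
    have h2 : ¬ ∃ j ∈ B, enc (true, j, d) = enc (c, i, d) := by
      rintro ⟨j, hjB, hj⟩
      have := henc hj
      simp only [Prod.mk.injEq] at this
      exact hi (this.2.1 ▸ hjB)
    rw [if_neg h1, if_neg h2]
    simp [hi]

theorem mor_enc_ne {enc : Bool × Fin m × Bool → Fin n} (henc : Function.Injective enc)
    (a b : Fin n) (B : Finset (Fin m)) {d d' : Bool} (hd : d' ≠ d) (c : Bool)
    (i : Fin m) :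
    mor enc a b B d (enc (c, i, d')) = [] := by
  classical
  unfold mor
  have h1 : ∀ c', ¬ ∃ j ∈ B, enc (c', j, d) = enc (c, i, d') := by
    rintro c' ⟨j, hjB, hj⟩
    have := henc hj
    simp only [Prod.mk.injEq] at this
    exact hd this.2.2.symm
  rw [if_neg (h1 false), if_neg (h1 true)]

theorem flatMap_on {enc : Bool × Fin m × Bool → Fin n} (henc : Function.Injective enc)
    (a b : Fin n) (B : Finset (Fin m)) (d : Bool) (e : ℕ → Fin m)
    (u : List (Bool × ℕ)) :
    (u.map (fun s => enc (s.1, e s.2, d))).flatMap (mor enc a b B d) =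
      Pool.Agent.Results.MP_dca9d4_lc.ExpSystem.read a b (ev (fun k => decide (e k ∈ B)) u) := by
  induction u with
  | nil => simp [ev, Pool.Agent.Results.MP_dca9d4_lc.ExpSystem.read]
  | cons s u ih =>
    rw [List.map_cons, List.flatMap_cons, ih, ev_cons, mor_enc henc]
    by_cases h : e s.2 ∈ B
    · simp [h, Pool.Agent.Results.MP_dca9d4_lc.ExpSystem.read]
    · simp [h, Pool.Agent.Results.MP_dca9d4_lc.ExpSystem.read]

theorem flatMap_off {enc : Bool × Fin m × Bool → Fin n} (henc : Function.Injective enc)
    (a b : Fin n) (B : Finset (Fin m)) {d d' : Bool} (hd : d' ≠ d) (e : ℕ → Fin m)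
    (u : List (Bool × ℕ)) :
    (u.map (fun s => enc (s.1, e s.2, d'))).flatMap (mor enc a b B d) = [] := by
  induction u with
  | nil => simp
  | cons s u ih =>
    rw [List.map_cons, List.flatMap_cons, ih, mor_enc_ne henc a b B hd]
    rfl

theorem agree_iff {enc : Bool × Fin m × Bool → Fin n} (henc : Function.Injective enc)
    {a b : Fin n} (hab : a ≠ b) (B : Finset (Fin m)) (e : ℕ → Fin m)
    (u v : List (Bool × ℕ)) :
    (wd enc e u v).flatMap (mor enc a b B false) = (wd enc e u v).flatMap (mor enc a b B true) ↔
      ev (fun k => decide (e k ∈ B)) u = ev (fun k => decide (e k ∈ B)) v := by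
  unfold wd
  rw [List.flatMap_append, List.flatMap_append, flatMap_on henc, flatMap_off henc a b B (by decide),
    flatMap_off henc a b B (by decide), flatMap_on henc, List.append_nil, List.nil_append]
  exact (read_inj hab).eq_iff

end words

/-- The core construction: words `W S` indexed by the subsets of `Fin m` and, for every subset `B`,
a pair of morphisms that agrees on `W S` (`S` nonempty) iff `S` is not contained in `B`. -/
theorem core (n m : ℕ) (hm : 1 ≤ m) (hn : 4 * m ≤ n) :
    ∃ W : Finset (Fin m) → List (Fin n),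
      ∀ B, ∃ g h : Fin n → List (Fin n), ∀ S, S.Nonempty →
        ((W S).flatMap g = (W S).flatMap h ↔ ¬ S ⊆ B) := by
  classical
  have hcard : Fintype.card (Bool × Fin m × Bool) ≤ Fintype.card (Fin n) := by
    simp only [Fintype.card_prod, Fintype.card_bool, Fintype.card_fin]
    omega
  obtain ⟨enc⟩ : Nonempty (Bool × Fin m × Bool ↪ Fin n) :=
    Function.Embedding.nonempty_of_card_le hcard
  have henc := enc.injective
  let a : Fin n := ⟨0, by omega⟩
  let b : Fin n := ⟨1, by omega⟩
  have hab : a ≠ b := by
    intro h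
    have := congrArg Fin.val h
    simp [a, b] at this
  have hex : ∀ S : Finset (Fin m), ∃ w : List (Fin n), S.Nonempty → ∀ B : Finset (Fin m),
      (w.flatMap (mor enc a b B false) = w.flatMap (mor enc a b B true) ↔ ¬ S ⊆ B) := by
    intro S
    by_cases hS : S.Nonempty
    · obtain ⟨q, hq⟩ : ∃ q, S.card = q + 1 := ⟨S.card - 1, by have := hS.card_pos; omega⟩
      obtain ⟨u, v, _, hg⟩ := gate q
      let e : ℕ → Fin m := fun k => S.orderEmbOfFin hq (Fin.ofNat (q + 1) k)
      refine ⟨wd enc e u v, fun _ B => ?_⟩
      rw [agree_iff henc hab, hg]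
      constructor
      · rintro ⟨k, _, hk⟩ hSB
        have h1 : e k ∈ S := Finset.orderEmbOfFin_mem _ _ _
        simp only [decide_eq_false_iff_not] at hk
        exact hk (hSB h1)
      · intro hnot
        obtain ⟨i, hiS, hiB⟩ := Finset.not_subset.1 hnot
        have hr : i ∈ Set.range (S.orderEmbOfFin hq) := by
          rw [Finset.range_orderEmbOfFin]
          exact hiS
        obtain ⟨j, hj⟩ := hr
        refine ⟨j.val, j.isLt, ?_⟩
        have hjj : Fin.ofNat (q + 1) j.val = j := by
          ext
          simp [Fin.ofNat, Nat.mod_eq_of_lt j.isLt]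
        simp only [e, hjj, hj, decide_eq_false_iff_not]
        exact hiB
    · exact ⟨[], fun h => absurd h hS⟩
  choose W hW using hex
  exact ⟨W, fun B => ⟨mor enc a b B false, mor enc a b B true, fun S hS => hW S hS B⟩⟩

end Pool.Agent.H688.WE
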